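import Pool.Agent.W770.PC.SphStms
import Pool.Agent.W32.PC.Line

set_option autoImplicit false

/-! Project PC, part sline: integrals over lines for the functions `A + B √(1 - |y|²)`. -/

open MeasureTheory Set Filter Topology
open scoped ENNReal NNReal

namespace Pool.Agent.W392.PC.Sline

open Pool.Agent.W770.PC Pool.Agent.W32.PC

theorem core (f f' : ℝ → ℝ) (hf : ∀ u, HasDerivAt f (f' u) u) (hfc : Continuous f') (N : ℕ)
    (hz : (∀ u ∈ Icc (-(3 / 8) : ℝ) (3 / 8), f' u = 0) ∨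
      {u | u ∈ Icc (-(3 / 8) : ℝ) (3 / 8) ∧ f' u = 0}.encard ≤ N) (φ : ℝ → ℝ≥0∞)
    (hφ : Measurable φ) :
    ∫⁻ u in Icc (-(3 / 8) : ℝ) (3 / 8), φ (f u) * ENNReal.ofReal |f' u| ≤
      ((N + 1 : ℕ) : ℝ≥0∞) * ∫⁻ v, φ v := by
  classical
  set J : Set ℝ := Icc (-(3 / 8) : ℝ) (3 / 8) with hJ
  have hJm : MeasurableSet J := measurableSet_Icc
  rcases hz with hz | hz
  · rw [setLIntegral_congr_fun hJm (g := fun _ => 0) (fun u hu => by simp [hz u hu])]
    simp
  have hfin : {u | u ∈ J ∧ f' u = 0}.Finite := Set.finite_of_encard_le_coe hz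
  set S : Finset ℝ := hfin.toFinset with hS
  have hcard : S.card ≤ N := by
    have h1 : ({u | u ∈ J ∧ f' u = 0} : Set ℝ).encard = (S.card : ℕ∞) := by
      rw [hfin.encard_eq_coe_toFinset_card]
    rw [h1] at hz
    exact_mod_cast hz
  set I : ℕ → Set ℝ := fun k => J ∩ {u | (S.filter (fun s => s < u)).card = k} with hI
  have hmeas : ∀ k, MeasurableSet (I k) := by
    intro k
    have hm : Measurable (fun u : ℝ => (S.filter (fun s => s < u)).card) := by
      have : (fun u : ℝ => (S.filter (fun s => s < u)).card) =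
          fun u => ∑ s ∈ S, if s < u then 1 else 0 := by
        funext u; rw [Finset.card_filter]
      rw [this]
      refine Finset.measurable_sum _ fun s _ => ?_
      exact Measurable.ite (measurableSet_lt measurable_const measurable_id) measurable_const
        measurable_const
    exact hJm.inter (hm (measurableSet_singleton k))
  have hcont : Continuous f := continuous_iff_continuousAt.2 fun u => (hf u).continuousAt
  have hinj : ∀ k, InjOn f (I k) := by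
    intro k
    have key : ∀ u ∈ I k, ∀ v ∈ I k, u < v → f u ≠ f v := by
      intro u hu v hv huv he
      obtain ⟨c, hc, hc2⟩ := exists_hasDerivAt_eq_zero (f := f) (f' := f') huv
        hcont.continuousOn he (fun x _ => hf x)
      have hcJ : c ∈ J := by
        have h1 := hu.1
        have h2 := hv.1
        rw [hJ, mem_Icc] at h1 h2 ⊢
        exact ⟨h1.1.trans hc.1.le, hc.2.le.trans h2.2⟩
      have hcS : c ∈ S := hfin.mem_toFinset.2 ⟨hcJ, hc2⟩
      have hlt : (S.filter (fun s => s < u)).card < (S.filter (fun s => s < v)).card := by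
        apply Finset.card_lt_card
        refine Finset.ssubset_iff_subset_ne.mpr ⟨fun s hs => ?_, fun he2 => ?_⟩
        · rw [Finset.mem_filter] at hs ⊢
          exact ⟨hs.1, hs.2.trans huv⟩
        · have h3 : c ∈ S.filter (fun s => s < v) := Finset.mem_filter.mpr ⟨hcS, hc.2⟩
          rw [← he2, Finset.mem_filter] at h3
          exact absurd h3.2 (not_lt.mpr hc.1.le)
      have e1 : (S.filter (fun s => s < u)).card = k := hu.2
      have e2 : (S.filter (fun s => s < v)).card = k := hv.2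
      omega
    intro u hu v hv he
    rcases lt_trichotomy u v with h | h | h
    · exact absurd he (key u hu v hv h)
    · exact h
    · exact absurd he.symm (key v hv u hu h)
  have hone : ∀ k, ∫⁻ u in I k, φ (f u) * ENNReal.ofReal |f' u| ≤ ∫⁻ v, φ v := by
    intro k
    have h1 := lintegral_image_eq_lintegral_abs_deriv_mul (hmeas k)
      (f := f) (f' := f') (fun x _ => (hf x).hasDerivWithinAt) (hinj k) φ
    calc ∫⁻ u in I k, φ (f u) * ENNReal.ofReal |f' u|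
        = ∫⁻ u in I k, ENNReal.ofReal |f' u| * φ (f u) := by
          refine lintegral_congr fun u => ?_
          rw [mul_comm]
      _ = ∫⁻ v in f '' I k, φ v := h1.symm
      _ ≤ ∫⁻ v, φ v := setLIntegral_le_lintegral _ _
  have hF : Measurable (fun u => φ (f u) * ENNReal.ofReal |f' u|) :=
    (hφ.comp hcont.measurable).mul (hfc.abs.measurable.ennreal_ofReal)
  have hsum : ∀ u, J.indicator (fun u => φ (f u) * ENNReal.ofReal |f' u|) u ≤
      ∑ k ∈ Finset.range (N + 1), (I k).indicator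
        (fun u => φ (f u) * ENNReal.ofReal |f' u|) u := by
    intro u
    by_cases hu : u ∈ J
    · have hk : (S.filter (fun s => s < u)).card ∈ Finset.range (N + 1) := by
        rw [Finset.mem_range]
        have := Finset.card_filter_le S (fun s => s < u)
        omega
      refine le_trans ?_ (Finset.single_le_sum (f := fun k => (I k).indicator
          (fun u => φ (f u) * ENNReal.ofReal |f' u|) u) (fun _ _ => zero_le) hk)
      have hmem : u ∈ I (S.filter (fun s => s < u)).card := ⟨hu, rfl⟩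
      rw [indicator_of_mem hmem, indicator_of_mem hu]
    · rw [indicator_of_notMem hu]
      exact zero_le
  calc ∫⁻ u in J, φ (f u) * ENNReal.ofReal |f' u|
      = ∫⁻ u, J.indicator (fun u => φ (f u) * ENNReal.ofReal |f' u|) u := by
        rw [lintegral_indicator hJm]
    _ ≤ ∫⁻ u, ∑ k ∈ Finset.range (N + 1), (I k).indicator
        (fun u => φ (f u) * ENNReal.ofReal |f' u|) u := lintegral_mono hsum
    _ = ∑ k ∈ Finset.range (N + 1), ∫⁻ u in I k, φ (f u) * ENNReal.ofReal |f' u| := by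
      rw [lintegral_finsetSum _ (fun k _ => hF.indicator (hmeas k))]
      refine Finset.sum_congr rfl fun k _ => ?_
      rw [lintegral_indicator (hmeas k)]
    _ ≤ ∑ k ∈ Finset.range (N + 1), ∫⁻ v, φ v := Finset.sum_le_sum fun k _ => hone k
    _ = ((N + 1 : ℕ) : ℝ≥0∞) * ∫⁻ v, φ v := by
      rw [Finset.sum_const, Finset.card_range, nsmul_eq_mul]

theorem Dm_eq : Dm = Icc (-(3 / 8) : ℝ) (3 / 8) ×ˢ Icc (-(3 / 8) : ℝ) (3 / 8) := by
  unfold Dm box
  simp

theorem rest : (volume.restrict Dm : Measure (ℝ × ℝ)) =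
    (volume.restrict (Icc (-(3 / 8) : ℝ) (3 / 8))).prod
      (volume.restrict (Icc (-(3 / 8) : ℝ) (3 / 8))) := by
  rw [Dm_eq, Measure.prod_restrict, ← Measure.volume_eq_prod]

theorem vol1 : (volume.restrict (Icc (-(3 / 8) : ℝ) (3 / 8)) : Measure ℝ) univ ≤ 1 := by
  rw [Measure.restrict_apply_univ, Real.volume_Icc, ← ENNReal.ofReal_one]
  exact ENNReal.ofReal_le_ofReal (by norm_num)

/-- zeros on a line -/
theorem zeros (h2 : S_szero) (D : ℕ) (a b : Polynomial ℝ) (ha : a.natDegree ≤ D)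
    (hb : b.natDegree ≤ D) (y : ℝ) (hy : y ∈ Icc (-(3 / 8) : ℝ) (3 / 8)) (f' : ℝ → ℝ)
    (hf : ∀ u ∈ Icc (-(3 / 8) : ℝ) (3 / 8), ∃ r : ℝ, 0 < r ∧ r * f' u = rt a b (1 - y ^ 2) u) :
    (∀ u ∈ Icc (-(3 / 8) : ℝ) (3 / 8), f' u = 0) ∨
      {u | u ∈ Icc (-(3 / 8) : ℝ) (3 / 8) ∧ f' u = 0}.encard ≤ (2 * D + 2 : ℕ) := by
  have hsq : ∀ u ∈ Icc (-(3 / 8) : ℝ) (3 / 8), u ^ 2 ≤ 9 / 64 := by
    intro u hu
    rw [mem_Icc] at hu
    nlinarith
  have hy2 := hsq y hy
  rcases h2 D a b ha hb (1 - y ^ 2) (by linarith) with h | h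
  · left
    intro u hu
    obtain ⟨r, hr, he⟩ := hf u hu
    rw [h u (by have := hsq u hu; linarith)] at he
    exact (mul_eq_zero.1 he).resolve_left hr.ne'
  · right
    refine le_trans (encard_le_encard ?_) h
    rintro u ⟨hu, hu0⟩
    obtain ⟨r, hr, he⟩ := hf u hu
    refine ⟨by have := hsq u hu; linarith, ?_⟩
    rw [← he, hu0, mul_zero]

theorem hh_eq (h3 : S_hh) (y : ℝ × ℝ) (hy : y ∈ U0) :
    hh y = Real.sqrt (1 - y.1 ^ 2 - y.2 ^ 2) := by
  obtain ⟨h, h', _⟩ := h3.2.2.2.1 y hy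
  rw [← h', Real.sqrt_sq h.le]

theorem fib1 (h2 : S_szero) (h3 : S_hh) (h4 : S_der) (G : ℝ × ℝ → ℝ)
    (hG : ContDiff ℝ (⊤ : ℕ∞) G) (D : ℕ) (A B : MvPolynomial (Fin 2) ℝ) (hA : A.totalDegree ≤ D)
    (hB : B.totalDegree ≤ D) (hz : ∀ y ∈ U0, hh y ^ 3 * d1 G y = sf A B y) (φ : ℝ → ℝ≥0∞)
    (hφ : Measurable φ) :
    ∫⁻ y in Dm, φ (G y) * ENNReal.ofReal |d1 G y| ≤ ((2 * D + 2 + 1 : ℕ) : ℝ≥0∞) * ∫⁻ v, φ v := by
  obtain ⟨hG1, _, hd, _⟩ := h4 G hG
  have hm : Measurable (fun y : ℝ × ℝ => φ (G y) * ENNReal.ofReal |d1 G y|) :=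
    (hφ.comp hG.continuous.measurable).mul (hG1.continuous.abs.measurable.ennreal_ofReal)
  rw [rest, lintegral_prod_symm _ hm.aemeasurable]
  calc ∫⁻ y in Icc (-(3 / 8) : ℝ) (3 / 8), ∫⁻ x in Icc (-(3 / 8) : ℝ) (3 / 8),
        φ (G (x, y)) * ENNReal.ofReal |d1 G (x, y)|
      ≤ ∫⁻ _ in Icc (-(3 / 8) : ℝ) (3 / 8), ((2 * D + 2 + 1 : ℕ) : ℝ≥0∞) * ∫⁻ v, φ v := by
        refine setLIntegral_mono' measurableSet_Icc fun y hy => ?_
        refine core (fun x => G (x, y)) (fun x => d1 G (x, y)) (fun u => hd (u, y))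
          (hG1.continuous.comp (by fun_prop)) (2 * D + 2) ?_ φ hφ
        refine zeros h2 D (pl1 A y) (pl1 B y) (pl1_deg A y D hA) (pl1_deg B y D hB) y hy _ ?_
        intro u hu
        have hU : (u, y) ∈ U0 := h3.2.1 (by rw [Dm_eq]; exact ⟨hu, hy⟩)
        refine ⟨hh (u, y) ^ 3, pow_pos (h3.2.2.2.1 _ hU).1 3, ?_⟩
        rw [hz _ hU]
        unfold sf rt
        rw [pl1_eval, pl1_eval, hh_eq h3 _ hU]
        simp only
        congr 3
        ring
    _ ≤ _ := by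
        rw [lintegral_const]
        calc _ ≤ ((2 * D + 2 + 1 : ℕ) : ℝ≥0∞) * (∫⁻ v, φ v) * 1 := by gcongr; exact vol1
          _ = _ := mul_one _

theorem fib2 (h2 : S_szero) (h3 : S_hh) (h4 : S_der) (G : ℝ × ℝ → ℝ)
    (hG : ContDiff ℝ (⊤ : ℕ∞) G) (D : ℕ) (A B : MvPolynomial (Fin 2) ℝ) (hA : A.totalDegree ≤ D)
    (hB : B.totalDegree ≤ D) (hz : ∀ y ∈ U0, hh y ^ 3 * d2 G y = sf A B y) (φ : ℝ → ℝ≥0∞)
    (hφ : Measurable φ) :
    ∫⁻ y in Dm, φ (G y) * ENNReal.ofReal |d2 G y| ≤ ((2 * D + 2 + 1 : ℕ) : ℝ≥0∞) * ∫⁻ v, φ v := by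
  obtain ⟨_, hG1, _, hd, _⟩ := h4 G hG
  have hm : Measurable (fun y : ℝ × ℝ => φ (G y) * ENNReal.ofReal |d2 G y|) :=
    (hφ.comp hG.continuous.measurable).mul (hG1.continuous.abs.measurable.ennreal_ofReal)
  rw [rest, lintegral_prod _ hm.aemeasurable]
  calc ∫⁻ x in Icc (-(3 / 8) : ℝ) (3 / 8), ∫⁻ y in Icc (-(3 / 8) : ℝ) (3 / 8),
        φ (G (x, y)) * ENNReal.ofReal |d2 G (x, y)|
      ≤ ∫⁻ _ in Icc (-(3 / 8) : ℝ) (3 / 8), ((2 * D + 2 + 1 : ℕ) : ℝ≥0∞) * ∫⁻ v, φ v := by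
        refine setLIntegral_mono' measurableSet_Icc fun x hx => ?_
        refine core (fun y => G (x, y)) (fun y => d2 G (x, y)) (fun u => hd (x, u))
          (hG1.continuous.comp (by fun_prop)) (2 * D + 2) ?_ φ hφ
        refine zeros h2 D (pl2 A x) (pl2 B x) (pl2_deg A x D hA) (pl2_deg B x D hB) x hx _ ?_
        intro u hu
        have hU : (x, u) ∈ U0 := h3.2.1 (by rw [Dm_eq]; exact ⟨hx, hu⟩)
        refine ⟨hh (x, u) ^ 3, pow_pos (h3.2.2.2.1 _ hU).1 3, ?_⟩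
        rw [hz _ hU]
        unfold sf rt
        rw [pl2_eval, pl2_eval, hh_eq h3 _ hU]
    _ ≤ _ := by
        rw [lintegral_const]
        calc _ ≤ ((2 * D + 2 + 1 : ℕ) : ℝ≥0∞) * (∫⁻ v, φ v) * 1 := by gcongr; exact vol1
          _ = _ := mul_one _

theorem sline_thm (h1 : S_sd) (h2 : S_szero) (h3 : S_hh) (h4 : S_der) : S_sline := by
  intro D
  refine ⟨((2 * (D + 4) + 2 + 1 : ℕ) : ℝ), by positivity, ?_⟩
  intro A B hA hB φ hφ
  rw [ENNReal.ofReal_natCast]
  obtain ⟨hsm, _, _, A11, B11, A12, B12, A22, B22, a1, a2, a3, a4, a5, a6, hy⟩ := h1 D A B hA hB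
  obtain ⟨hd1, hd2, _, _, _, hsw, _⟩ := h4 _ hsm
  refine ⟨?_, ?_, ?_⟩
  · exact fib1 h2 h3 h4 _ hd1 (D + 4) A11 B11 a1 a2 (fun y hy' => (hy y hy').1) φ hφ
  · have := fib2 h2 h3 h4 _ hd1 (D + 4) A12 B12 a3 a4 (fun y hy' => by
      rw [hsw y]
      exact (hy y hy').2.1) φ hφ
    simp only [hsw] at this
    exact this
  · exact fib2 h2 h3 h4 _ hd2 (D + 4) A22 B22 a5 a6 (fun y hy' => (hy y hy').2.2) φ hφ

end Pool.Agent.W392.PC.Sline
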